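import Pool.Agent.ABC3.Stmts

/-!
# MP_4e0dfc_co, row QUO: caps over `Q` and `Q ⧸ P` agree
-/

set_option autoImplicit false

namespace Pool.Agent.ABC3.H28

theorem com_iff {K Q : Type} [Field K] [CharP K 3] [AddCommGroup Q] [Module K Q]
    {ι : Type} [Fintype ι] [DecidableEq ι] (ev : ι → (Q →ₗ[K] K)) (P : Submodule K Q)
    (h : ∀ c, P ≤ LinearMap.ker (ev c)) (M : Matrix (St ι) (St ι) K) :
    Com (TSys ev) ⊤ M ↔ Com (TSys (fun c => P.liftQ (ev c) (h c))) ⊤ M := by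
  have key : ∀ q : Q, (TSys (fun c => P.liftQ (ev c) (h c))).act (Submodule.Quotient.mk q) =
      (TSys ev).act q := by
    intro q
    rw [TSys_act, TSys_act]
    rfl
  constructor
  · intro hM p _
    obtain ⟨q, rfl⟩ := Submodule.Quotient.mk_surjective P p
    rw [key q]
    exact hM q trivial
  · intro hM q _
    have := hM (Submodule.Quotient.mk q) trivial
    rw [key q] at this
    exact this

theorem quo : QUOStmt := by
  intro K Q _ _ _ _ ι _ _ ev P h e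
  unfold IsCap
  constructor
  · rintro ⟨h1, h2, h3, h4, h5⟩
    refine ⟨h1, h2, (com_iff ev P h e).mp h3, h4, ?_⟩
    intro f hf hfc hft
    obtain ⟨α, β, ⟨ha, hac⟩, ⟨hb, hbc⟩, hab⟩ := h5 f hf ((com_iff ev P h f).mpr hfc) hft
    exact ⟨α, β, ⟨ha, (com_iff ev P h α).mp hac⟩, ⟨hb, (com_iff ev P h β).mp hbc⟩, hab⟩
  · rintro ⟨h1, h2, h3, h4, h5⟩
    refine ⟨h1, h2, (com_iff ev P h e).mpr h3, h4, ?_⟩
    intro f hf hfc hft
    obtain ⟨α, β, ⟨ha, hac⟩, ⟨hb, hbc⟩, hab⟩ := h5 f hf ((com_iff ev P h f).mp hfc) hft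
    exact ⟨α, β, ⟨ha, (com_iff ev P h α).mpr hac⟩, ⟨hb, (com_iff ev P h β).mpr hbc⟩, hab⟩

end Pool.Agent.ABC3.H28
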